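import Pool.Agent.Q275.CG.Out1

/-!
# `Out (Gam U)` is finite
-/

set_option autoImplicit false
set_option linter.unusedSectionVars false

namespace Pool.Agent.Q275.CG

open Pool.Agent.Q22.CG

variable {P : Type} [Group P] {U : Set P}

/-- `Φ` moves the copies of `A5` by `σ` and `c` -/
def Mv (Φ : MulAut (Gam U)) (σ : P → P) (c : P → MulAut A5) : Prop :=
  ∀ x s, Φ (D U x s) = D U (σ x) (c x s)

lemma exists_mv (Φ : MulAut (Gam U)) : ∃ (σ : P → P) (c : P → MulAut A5), Mv Φ σ c := by
  choose σ c h using exists_image Φ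
  exact ⟨σ, c, h⟩

lemma Mv.mul {Φ Ψ : MulAut (Gam U)} {σ τ : P → P} {c d : P → MulAut A5} (h : Mv Φ σ c)
    (h' : Mv Ψ τ d) : Mv (Φ * Ψ) (fun x => σ (τ x)) (fun x => c (τ x) * d x) := by
  intro x s
  rw [MulAut.mul_apply, h' x s, h]
  rfl

lemma Mv.conj_eq {Φ : MulAut (Gam U)} {σ : P → P} {c : P → MulAut A5} (h : Mv Φ σ c)
    (γ : Gam U) (x : P) (s : A5) :
    D U ((Φ γ).right * σ x) ((Φ γ).left.1 ((Φ γ).right * σ x) * c x s *
      ((Φ γ).left.1 ((Φ γ).right * σ x))⁻¹) =
    D U (σ (γ.right * x)) (c (γ.right * x) (γ.left.1 (γ.right * x) * s *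
      (γ.left.1 (γ.right * x))⁻¹)) := by
  have h1 := congrArg Φ (D_conj γ x s)
  rw [h, map_mul, map_mul, map_inv, h, D_conj] at h1
  exact h1

lemma Mv.right {Φ : MulAut (Gam U)} {σ : P → P} {c : P → MulAut A5} (h : Mv Φ σ c)
    (γ : Gam U) (x : P) : (Φ γ).right * σ x = σ (γ.right * x) := by
  obtain ⟨a, ha⟩ := exists_ne1
  refine (D_inj (h.conj_eq γ x a) ?_).1
  intro h1
  rw [conj_eq_one_iff] at h1
  exact ha ((map_eq_one_iff _ (c x).injective).mp h1)

lemma Mv.left {Φ : MulAut (Gam U)} {σ : P → P} {c : P → MulAut A5} (h : Mv Φ σ c)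
    (γ : Gam U) (x : P) (s : A5) : (Φ γ).left.1 (σ (γ.right * x)) * c x s *
      ((Φ γ).left.1 (σ (γ.right * x)))⁻¹ =
    c (γ.right * x) (γ.left.1 (γ.right * x) * s * (γ.left.1 (γ.right * x))⁻¹) := by
  have h1 := h.conj_eq γ x s
  rw [h.right] at h1
  by_cases hs : s = 1
  · subst hs
    simp
  · refine (D_inj h1 ?_).2
    intro h2
    rw [conj_eq_one_iff] at h2
    exact hs ((map_eq_one_iff _ (c x).injective).mp h2)

/-- the value on the base group -/
lemma Mv.base {Φ : MulAut (Gam U)} {σ : P → P} {c : P → MulAut A5} (h : Mv Φ σ c)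
    {γ : Gam U} (hγ : γ.right = 1) (x : P) : (Φ γ).left.1 (σ x) = c x (γ.left.1 x) := by
  apply eq_of_conj
  intro s
  obtain ⟨s', rfl⟩ := (c x).surjective s
  have h1 := h.left γ x s'
  rw [hγ, one_mul] at h1
  rw [h1, map_mul, map_mul, map_inv]

/-- an automorphism is determined by the copies of `A5` -/
lemma Mv.one {Φ : MulAut (Gam U)} (h : Mv Φ id 1) : Φ = 1 := by
  ext1 γ
  have hr : (Φ γ).right = γ.right := by
    have := h.right γ 1
    simpa using this
  apply gam_ext
  · intro y
    apply eq_of_conj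
    intro s
    have h1 := h.left γ (γ.right⁻¹ * y) s
    simp only [id, mul_inv_cancel_left, Pi.one_apply, MulAut.one_apply] at h1
    exact h1
  · exact hr

lemma Mv.inv_mul {Φ Ψ : MulAut (Gam U)} {σ : P → P} {c : P → MulAut A5} (h : Mv Φ σ c)
    (h' : Mv Ψ σ c) : Φ = Ψ := by
  have h1 : Mv (Ψ⁻¹ * Φ) id 1 := by
    intro x s
    rw [MulAut.mul_apply, h x s, ← h' x s]
    exact Ψ.symm_apply_apply _
  exact (inv_mul_eq_one.mp h1.one).symm

lemma mv_conj (g : Gam U) : Mv (MulAut.conj g) (fun x => g.right * x)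
    (fun x => MulAut.conj (g.left.1 (g.right * x))) := by
  intro x s
  rw [MulAut.conj_apply, MulAut.conj_apply, D_conj]

/-! ### The automorphisms of `P` preserving `U` -/

lemma alg_comp {A : Set P} (α : P ≃* P) (hα : ∀ x, α x ∈ U ↔ x ∈ U) (hA : A ∈ Alg U) :
    {x | α x ∈ A} ∈ Alg U := by
  classical
  obtain ⟨L, E, h⟩ := hA
  refine ⟨L.image α.symm, {S | S.image α ∈ E},
    (h.preimage (f := α) (α.injective.injOn)).subset ?_⟩
  intro x hx
  have e : (pat U (L.image α.symm) x).image α = pat U L (α x) := by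
    ext l
    simp only [Finset.mem_image, mem_pat]
    constructor
    · rintro ⟨m, ⟨⟨l', hl', rfl⟩, hm⟩, rfl⟩
      refine ⟨by simpa using hl', ?_⟩
      rw [← hα] at hm
      simpa using hm
    · rintro ⟨hl, hm⟩
      refine ⟨α.symm l, ⟨⟨l, hl, rfl⟩, ?_⟩, by simp⟩
      rw [← hα]
      simpa using hm
  have hx' : ¬ (α x ∈ A ↔ (pat U (L.image α.symm) x).image α ∈ E) := hx
  rw [e] at hx'
  exact hx'

/-- the action on the base group -/
def cB (α : P ≃* P) (hα : ∀ x, α x ∈ U ↔ x ∈ U) : Bas U ≃* Bas U where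
  toFun f := ⟨fun x => f.1 (α.symm x), fun s => by
    refine alg_comp (A := {x | f.1 x = s}) α.symm (fun x => ?_) (f.2 s)
    rw [← hα, MulEquiv.apply_symm_apply]⟩
  invFun f := ⟨fun x => f.1 (α x), fun s => alg_comp (A := {x | f.1 x = s}) α hα (f.2 s)⟩
  left_inv := by intro f; ext x; simp
  right_inv := by intro f; ext x; simp
  map_mul' := by intro f g; rfl

/-- the automorphism of `Gam U` -/
def cG (α : P ≃* P) (hα : ∀ x, α x ∈ U ↔ x ∈ U) : MulAut (Gam U) :=
  SemidirectProduct.congr (cB α hα) α (by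
    intro p
    ext f x
    simp [cB, sh])

lemma mv_cG (α : P ≃* P) (hα : ∀ x, α x ∈ U ↔ x ∈ U) : Mv (cG α hα) α 1 := by
  intro x s
  apply gam_ext
  · intro y
    have h1 : (cG α hα (D U x s)).left.1 y = dl x s (α.symm y) := rfl
    rw [h1, D_left, Pi.one_apply, MulAut.one_apply]
    by_cases h : y = α x
    · subst h
      rw [MulEquiv.symm_apply_apply, dl_self, dl_self]
    · rw [dl_ne _ h, dl_ne]
      intro h2
      apply h
      rw [← h2, MulEquiv.apply_symm_apply]
  · have h1 : (cG α hα (D U x s)).right = α 1 := rfl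
    rw [h1, map_one, D_right]

/-- automorphisms of `A5` acting on the base group -/
def gB (U : Set P) (c : MulAut A5) : Bas U ≃* Bas U where
  toFun f := ⟨fun x => c (f.1 x), fun s => alg_fiber f.2 (fun a => c a = s)⟩
  invFun f := ⟨fun x => c.symm (f.1 x), fun s => alg_fiber f.2 (fun a => c.symm a = s)⟩
  left_inv := by intro f; ext1; funext x; exact c.symm_apply_apply _
  right_inv := by intro f; ext1; funext x; exact c.apply_symm_apply _
  map_mul' := by intro f g; ext1; funext x; exact map_mul c _ _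

/-- the automorphism of `Gam U` -/
def gG (U : Set P) (c : MulAut A5) : MulAut (Gam U) :=
  SemidirectProduct.congr (gB U c) (MulEquiv.refl P) (by intro p; rfl)

lemma mv_gG (c : MulAut A5) : Mv (gG U c) id (fun _ => c) := by
  intro x s
  apply gam_ext
  · intro y
    have h1 : (gG U c (D U x s)).left.1 y = c (dl x s y) := rfl
    rw [h1, D_left]
    by_cases h : y = x
    · subst h
      rw [dl_self]
      exact (dl_self _ _).symm
    · rw [dl_ne _ h, map_one]
      exact (dl_ne _ h).symm
  · rfl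

lemma Mv.pow {Φ : MulAut (Gam U)} {σ : P → P} (h : Mv Φ σ 1) (n : ℕ) :
    Mv (Φ ^ n) (σ^[n]) 1 := by
  induction n with
  | zero =>
    intro x s
    rfl
  | succ n ih =>
    intro x s
    rw [pow_succ, MulAut.mul_apply, h x s, ih]
    rfl

lemma U_mem : U ∈ Alg U := by
  refine alg_of_eq {1} {{1}} ?_
  intro x
  rw [Set.mem_singleton_iff, Finset.eq_singleton_iff_unique_mem]
  simp only [mem_pat, Finset.mem_singleton]
  constructor
  · intro hx
    exact ⟨⟨by simp, by simpa using hx⟩, fun y hy => hy.1⟩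
  · rintro ⟨⟨_, h⟩, _⟩
    simpa using h

lemma conj_comm {G : Type} [Group G] (X : MulAut G) (g : G) :
    X * MulAut.conj g = MulAut.conj (X g) * X := by
  ext1 y
  rw [MulAut.mul_apply, MulAut.mul_apply, MulAut.conj_apply, MulAut.conj_apply, map_mul, map_mul,
    map_inv]

lemma mk_conj_mul {G : Type} [Group G] (X : MulAut G) (g : G) :
    (QuotientGroup.mk (MulAut.conj g * X) :
      MulAut G ⧸ (MulAut.conj : G →* MulAut G).range) = QuotientGroup.mk X := by
  rw [QuotientGroup.eq]
  refine ⟨X⁻¹ g⁻¹, ?_⟩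
  have h1 := conj_comm (X⁻¹) g⁻¹
  rw [mul_inv_rev, ← map_inv, h1, mul_assoc, inv_mul_cancel, mul_one]

/-- if the copies are not moved then the automorphism is inner up to an automorphism of `A5` -/
lemma of_id {Φ : MulAut (Gam U)} {c : P → MulAut A5} (h : Mv Φ id c) :
    ∃ (g : Gam U) (γ : MulAut A5), Φ = MulAut.conj g * gG U γ := by
  classical
  set hh : P → A5 := fun x => (Φ (SemidirectProduct.inr x)).left.1 x with hhh
  have hc : ∀ x s, c x s = hh x * c 1 s * (hh x)⁻¹ := by
    intro x s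
    have h1 := h.left (SemidirectProduct.inr x) 1 s
    have e1 : ∀ z, (SemidirectProduct.inr x : Gam U).left.1 z = 1 := fun z => rfl
    rw [SemidirectProduct.right_inr, mul_one, e1, one_mul, inv_one, mul_one] at h1
    exact h1.symm
  have hlev : ∀ t z, {x | c x t = z} ∈ Alg U := by
    intro t z
    have hconst : (fun _ : P => t) ∈ Bas U := by
      intro s
      by_cases hs : t = s
      · have : {x : P | t = s} = Set.univ := by ext x; simp [hs]
        rw [this]; exact alg_univ U
      · have : {x : P | t = s} = ∅ := by ext x; simp [hs]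
        rw [this]; exact alg_finite Set.finite_empty
    have h1 : ∀ x, (Φ (SemidirectProduct.inl ⟨_, hconst⟩)).left.1 x = c x t := fun x =>
      h.base (γ := SemidirectProduct.inl ⟨_, hconst⟩) rfl x
    have h2 := (Φ (SemidirectProduct.inl ⟨_, hconst⟩)).left.2 z
    simp only [h1] at h2
    exact h2
  have hmem : hh ∈ Bas U := by
    intro y
    have hS : ∀ S : Finset A5, {x | ∀ t ∈ S, c x t = y * c 1 t * y⁻¹} ∈ Alg U := by
      intro S
      induction S using Finset.induction_on with
      | empty => simpa using alg_univ U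
      | insert a S ha ih =>
        have h1 := alg_inter (hlev a (y * c 1 a * y⁻¹)) ih
        have h2 : {x | c x a = y * c 1 a * y⁻¹} ∩ {x | ∀ t ∈ S, c x t = y * c 1 t * y⁻¹} =
            {x | ∀ t ∈ insert a S, c x t = y * c 1 t * y⁻¹} := by
          ext x
          simp only [Set.mem_inter_iff, Set.mem_ofPred_eq, Finset.forall_mem_insert]
        rwa [h2] at h1
    have h1 := hS Finset.univ
    have h2 : {x | ∀ t ∈ (Finset.univ : Finset A5), c x t = y * c 1 t * y⁻¹} =
        {x | hh x = y} := by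
      ext x
      simp only [Set.mem_ofPred_eq, Finset.mem_univ, true_implies]
      constructor
      · intro h3
        apply eq_of_conj
        intro s
        obtain ⟨s', rfl⟩ := (c 1).surjective s
        rw [← hc, h3]
      · intro h3 t
        rw [hc, h3]
    rwa [h2] at h1
  refine ⟨SemidirectProduct.inl ⟨hh, hmem⟩, c 1, ?_⟩
  have h1 := (mv_conj (SemidirectProduct.inl ⟨hh, hmem⟩ : Gam U)).mul (mv_gG (U := U) (c 1))
  have h2 : Mv (MulAut.conj (SemidirectProduct.inl ⟨hh, hmem⟩) * gG U (c 1)) id c := by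
    intro x s
    rw [h1 x s]
    have e1 : (SemidirectProduct.inl ⟨hh, hmem⟩ : Gam U).right = 1 := rfl
    have e2 : ∀ z, (SemidirectProduct.inl ⟨hh, hmem⟩ : Gam U).left.1 z = hh z := fun z => rfl
    rw [e1]
    simp only [id, one_mul, MulAut.mul_apply, MulAut.conj_apply, e2]
    rw [← hc]
  exact h.inv_mul h2

theorem out : S_OUT := by
  intro P _ U α hα3 hαU hrig
  classical
  set A : MulAut (Gam U) := cG α hαU with hA
  have hA3 : A ^ 3 = 1 := by
    have h1 := (mv_cG α hαU).pow 3
    apply Mv.one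
    intro x s
    rw [h1 x s]
    congr 1
    exact hα3 x
  refine Finite.of_surjective (fun z : Fin 3 × MulAut A5 =>
    (QuotientGroup.mk (A ^ (z.1 : ℕ) * gG U z.2) :
      MulAut (Gam U) ⧸ (MulAut.conj : Gam U →* MulAut (Gam U)).range)) ?_
  intro q
  obtain ⟨Φ, rfl⟩ := QuotientGroup.mk_surjective q
  obtain ⟨σ, c, h⟩ := exists_mv Φ
  obtain ⟨τ, d, h'⟩ := exists_mv Φ⁻¹
  obtain ⟨a, ha⟩ := exists_ne1
  have hτσ : ∀ x, τ (σ x) = x := by
    intro x
    have h1 := h'.mul h x a
    rw [inv_mul_cancel, MulAut.one_apply] at h1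
    exact (D_inj h1 ha).1.symm
  have hστ : ∀ x, σ (τ x) = x := by
    intro x
    have h1 := h.mul h' x a
    rw [mul_inv_cancel, MulAut.one_apply] at h1
    exact (D_inj h1 ha).1.symm
  -- the automorphism of `P`
  let φ0 : P →* P := (SemidirectProduct.rightHom (φ := sh U)).comp
    (Φ.toMonoidHom.comp (SemidirectProduct.inr (φ := sh U)))
  have hφ0 : ∀ x, φ0 x * σ 1 = σ x := by
    intro x
    have h1 := h.right (SemidirectProduct.inr x) 1
    rw [SemidirectProduct.right_inr, mul_one] at h1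
    exact h1
  have hbij : Function.Bijective φ0 := by
    constructor
    · intro x y hxy
      have h1 : σ x = σ y := by rw [← hφ0 x, ← hφ0 y, hxy]
      rw [← hτσ x, ← hτσ y, h1]
    · intro y
      refine ⟨τ (y * σ 1), ?_⟩
      have h1 := hφ0 (τ (y * σ 1))
      rw [hστ] at h1
      exact mul_right_cancel h1
  let φ : P ≃* P := MulEquiv.ofBijective φ0 hbij
  -- the image of `U`
  have hfU : (fun x : P => if x ∈ U then a else 1) ∈ Bas U := by
    intro s
    by_cases hs : s = 1
    · have h1 := alg_compl (U_mem (U := U))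
      have h2 : Uᶜ = {x : P | (if x ∈ U then a else 1) = s} := by
        ext x
        simp only [Set.mem_compl_iff, Set.mem_ofPred_eq, hs]
        by_cases hx : x ∈ U <;> simp [hx, ha]
      rwa [h2] at h1
    · by_cases hs2 : a = s
      · have h2 : U = {x : P | (if x ∈ U then a else 1) = s} := by
          ext x
          simp only [Set.mem_ofPred_eq]
          by_cases hx : x ∈ U <;> simp [hx, hs2, Ne.symm hs]
        exact (congrArg (fun S => S ∈ Alg U) h2).mp U_mem
      · have h2 : {x : P | (if x ∈ U then a else 1) = s} = ∅ := by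
          ext x
          simp only [Set.mem_ofPred_eq, Set.mem_empty_iff_false, iff_false]
          by_cases hx : x ∈ U <;> simp [hx, hs2, Ne.symm hs]
        rw [h2]; exact alg_finite Set.finite_empty
  have hval : ∀ x, (Φ (SemidirectProduct.inl ⟨_, hfU⟩)).left.1 (σ x) =
      c x (if x ∈ U then a else 1) := fun x =>
    h.base (γ := SemidirectProduct.inl ⟨_, hfU⟩) rfl x
  have hset : {y | ∃ x ∈ U, y = φ x * σ 1} ∈ Alg U := by
    have h1 := alg_fiber (Φ (SemidirectProduct.inl ⟨_, hfU⟩)).left.2 (fun r => r ≠ 1)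
    have h2 : {y | (Φ (SemidirectProduct.inl ⟨_, hfU⟩)).left.1 y ≠ 1} =
        {y | ∃ x ∈ U, y = φ x * σ 1} := by
      ext y
      simp only [Set.mem_ofPred_eq]
      constructor
      · intro hy
        rw [← hστ y, hval] at hy
        by_cases hx : τ y ∈ U
        · refine ⟨τ y, hx, ?_⟩
          have : φ (τ y) * σ 1 = σ (τ y) := hφ0 (τ y)
          rw [this, hστ]
        · rw [if_neg hx, map_one] at hy
          exact absurd rfl hy
      · rintro ⟨x, hx, rfl⟩
        have : φ x * σ 1 = σ x := hφ0 x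
        rw [this, hval, if_pos hx]
        intro h3
        exact ha ((map_eq_one_iff _ (c x).injective).mp h3)
    rwa [h2] at h1
  obtain ⟨q, e, hqe⟩ := hrig φ (σ 1) hset
  have hσ : ∀ x, σ x = q * (α^[e]) x := by
    intro x
    have : φ x * σ 1 = σ x := hφ0 x
    rw [← this, hqe]
  -- remove the inner automorphism and the power of `A`
  set X : MulAut (Gam U) := MulAut.conj (SemidirectProduct.inr q) * A ^ e with hX
  have hXmv : Mv X σ 1 := by
    have h1 := (mv_conj (SemidirectProduct.inr q : Gam U)).mul ((mv_cG α hαU).pow e)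
    intro x s
    rw [hX, h1 x s]
    have e2 : ∀ z, (SemidirectProduct.inr q : Gam U).left.1 z = 1 := fun z => rfl
    simp only [SemidirectProduct.right_inr, e2, map_one, one_mul]
    rw [hσ]
  have h2 : Mv (X⁻¹ * Φ) id c := by
    intro x s
    rw [MulAut.mul_apply, h x s]
    have h3 := hXmv x (c x s)
    rw [Pi.one_apply, MulAut.one_apply] at h3
    rw [← h3]
    exact X.symm_apply_apply _
  obtain ⟨g, γ, hgγ⟩ := of_id h2
  have h3 : Φ = MulAut.conj (SemidirectProduct.inr q) * (MulAut.conj ((A ^ e) g) *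
      (A ^ e * gG U γ)) := by
    have h4 : Φ = X * (X⁻¹ * Φ) := by rw [mul_inv_cancel_left]
    rw [h4, hgγ, hX, mul_assoc, ← mul_assoc (A ^ e) (MulAut.conj g), conj_comm, mul_assoc]
  refine ⟨(⟨e % 3, Nat.mod_lt _ (by norm_num)⟩, γ), ?_⟩
  simp only
  rw [h3, mk_conj_mul, mk_conj_mul]
  congr 2
  exact pow_eq_pow_mod e hA3 |>.symm

end Pool.Agent.Q275.CG
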