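import Pool.Agent.Q22.CG.Stm

/-!
# Automorphisms of `Gam U`: the copies of the alternating group
-/

set_option autoImplicit false
set_option linter.unusedSectionVars false

namespace Pool.Agent.Q275.CG

open Pool.Agent.Q22.CG

/-! ### The alternating group of degree five -/

lemma exists_noncomm {a : A5} (ha : a ≠ 1) : ∃ t : A5, a * t * a⁻¹ * t⁻¹ ≠ 1 := by
  by_contra h
  push Not at h
  apply ha
  have h1 : a ∈ Subgroup.center A5 := by
    rw [Subgroup.mem_center_iff]
    intro g
    have := h g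
    rw [mul_inv_eq_one, mul_inv_eq_iff_eq_mul] at this
    exact this.symm
  rw [alternatingGroup.center_eq_bot (by simp)] at h1
  exact Subgroup.mem_bot.mp h1

lemma exists_ne1 : ∃ a : A5, a ≠ 1 := exists_ne 1

lemma eq_of_conj {a b : A5} (h : ∀ s : A5, a * s * a⁻¹ = b * s * b⁻¹) : a = b := by
  by_contra hab
  have h1 : b⁻¹ * a ≠ 1 := by
    intro h1
    exact hab (inv_mul_eq_one.mp h1).symm
  obtain ⟨t, ht⟩ := exists_noncomm h1
  apply ht
  have h2 := h t
  calc b⁻¹ * a * t * (b⁻¹ * a)⁻¹ * t⁻¹ = b⁻¹ * (a * t * a⁻¹) * b * t⁻¹ := by group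
    _ = b⁻¹ * (b * t * b⁻¹) * b * t⁻¹ := by rw [h2]
    _ = 1 := by group

variable {P : Type} [Group P] {U : Set P}

/-! ### Delta functions -/

open Classical in
/-- the function equal to `s` at `x` and trivial elsewhere -/
noncomputable def dl (x : P) (s : A5) : P → A5 := fun y => if y = x then s else 1

lemma dl_self (x : P) (s : A5) : dl x s x = s := by simp [dl]

lemma dl_ne {x y : P} (s : A5) (h : y ≠ x) : dl x s y = 1 := by simp [dl, h]

lemma dl_mem (x : P) (s : A5) : dl x s ∈ Bas U := by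
  intro t
  by_cases ht : t = 1
  · subst ht
    have h1 : {y | dl x s y ≠ 1} ∈ Alg U := by
      apply alg_finite
      apply (Set.finite_singleton x).subset
      intro y hy
      by_contra hne
      exact hy (dl_ne s hne)
    have h2 := alg_compl h1
    have h3 : {y | dl x s y ≠ 1}ᶜ = {y | dl x s y = 1} := by
      ext y; simp
    rwa [h3] at h2
  · apply alg_finite
    apply (Set.finite_singleton x).subset
    intro y hy
    by_contra hne
    apply ht
    have hy' : dl x s y = t := hy
    rw [← hy', dl_ne s hne]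

variable (U) in
/-- the copy of `A5` at `x` -/
noncomputable def D (x : P) (s : A5) : Gam U := SemidirectProduct.inl ⟨dl x s, dl_mem x s⟩

lemma D_left (x : P) (s : A5) : (D U x s).left.1 = dl x s := rfl

lemma D_right (x : P) (s : A5) : (D U x s).right = 1 := rfl

lemma gam_ext {γ δ : Gam U} (h1 : ∀ x, γ.left.1 x = δ.left.1 x) (h2 : γ.right = δ.right) :
    γ = δ := by
  apply SemidirectProduct.ext
  · exact Subtype.ext (funext h1)
  · exact h2

lemma mul_left_val (γ δ : Gam U) (x : P) :
    (γ * δ).left.1 x = γ.left.1 x * δ.left.1 (γ.right⁻¹ * x) := rfl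

lemma inv_left_val (γ : Gam U) (x : P) : (γ⁻¹).left.1 x = (γ.left.1 (γ.right * x))⁻¹ := by
  have h := mul_left_val γ γ⁻¹ (γ.right * x)
  rw [mul_inv_cancel, inv_mul_cancel_left] at h
  have h1 : (1 : Gam U).left.1 (γ.right * x) = 1 := rfl
  rw [h1] at h
  exact (inv_eq_of_mul_eq_one_right h.symm).symm

lemma D_mul (x : P) (s t : A5) : D U x (s * t) = D U x s * D U x t := by
  apply gam_ext
  · intro y
    rw [mul_left_val, D_left, D_left, D_left, D_right, inv_one, one_mul]
    by_cases h : y = x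
    · subst h; rw [dl_self, dl_self, dl_self]
    · rw [dl_ne _ h, dl_ne _ h, dl_ne _ h, one_mul]
  · rw [SemidirectProduct.mul_right, D_right, D_right, D_right, one_mul]

variable (U) in
/-- as a homomorphism -/
noncomputable def DH (x : P) : A5 →* Gam U := MonoidHom.mk' (D U x) (D_mul x)

lemma DH_apply (x : P) (s : A5) : DH U x s = D U x s := rfl

lemma D_one (x : P) : D U x 1 = 1 := map_one (DH U x)

lemma D_inv (x : P) (s : A5) : D U x s⁻¹ = (D U x s)⁻¹ := map_inv (DH U x) s

lemma D_conj (γ : Gam U) (x : P) (s : A5) : γ * D U x s * γ⁻¹ =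
    D U (γ.right * x) (γ.left.1 (γ.right * x) * s * (γ.left.1 (γ.right * x))⁻¹) := by
  apply gam_ext
  · intro y
    rw [mul_left_val, mul_left_val, inv_left_val, D_left, D_left, SemidirectProduct.mul_right,
      D_right, mul_one]
    by_cases h : y = γ.right * x
    · subst h
      rw [dl_self, inv_mul_cancel_left, dl_self]
    · have h1 : γ.right⁻¹ * y ≠ x := by
        intro h1; apply h; rw [← h1, mul_inv_cancel_left]
      rw [dl_ne _ h, dl_ne _ h1, mul_one, mul_inv_cancel_left, mul_inv_cancel]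
  · rw [SemidirectProduct.mul_right, SemidirectProduct.mul_right, D_right, D_right, mul_one,
      SemidirectProduct.inv_right, mul_inv_cancel]

lemma D_inj {x y : P} {s t : A5} (h : D U x s = D U y t) (hs : s ≠ 1) : x = y ∧ s = t := by
  have h1 : dl x s = dl y t := by
    rw [← D_left (U := U), ← D_left (U := U), h]
  have h2 : x = y := by
    by_contra hne
    have := congrFun h1 x
    rw [dl_self, dl_ne _ hne] at this
    exact hs this
  subst h2
  have := congrFun h1 x
  rw [dl_self, dl_self] at this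
  exact ⟨rfl, this⟩

lemma D_ne_one {x : P} {s : A5} (hs : s ≠ 1) : D U x s ≠ 1 := by
  intro h
  rw [← D_one x] at h
  exact hs (D_inj h hs).2

/-! ### Normal subgroups -/

lemma all_of_one {x : P} {N : Subgroup (Gam U)} (hN : N.Normal) {s : A5} (hs : s ≠ 1)
    (h : D U x s ∈ N) (t : A5) : D U x t ∈ N := by
  have h1 : (N.comap (DH U x)).Normal := hN.comap _
  rcases h1.eq_bot_or_eq_top with h2 | h2
  · exfalso
    have h3 : s ∈ N.comap (DH U x) := h
    rw [h2] at h3
    exact hs (Subgroup.mem_bot.mp h3)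
  · have h3 : t ∈ N.comap (DH U x) := by rw [h2]; trivial
    exact h3

/-- the commutator of an element of the base group -/
lemma comm_base {γ : Gam U} (hγ : γ.right = 1) (x : P) (t : A5) :
    γ * D U x t * γ⁻¹ * (D U x t)⁻¹ = D U x (γ.left.1 x * t * (γ.left.1 x)⁻¹ * t⁻¹) := by
  rw [D_conj, hγ, one_mul, ← D_inv, ← D_mul]

lemma mem_of_normal {N : Subgroup (Gam U)} (hN : N.Normal) {γ : Gam U} (hγ : γ ∈ N)
    (hγ1 : γ ≠ 1) (x : P) (s : A5) : D U x s ∈ N := by
  have hcomm : ∀ {γ : Gam U}, γ ∈ N → ∀ δ : Gam U, γ * δ * γ⁻¹ * δ⁻¹ ∈ N := by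
    intro γ hγ δ
    have h1 := hN.conj_mem γ⁻¹ (N.inv_mem hγ) δ
    have h2 := N.mul_mem hγ h1
    rwa [← mul_assoc, ← mul_assoc] at h2
  obtain ⟨y, r, hr, hyr⟩ : ∃ (y : P) (r : A5), r ≠ 1 ∧ D U y r ∈ N := by
    have hbase : ∀ {δ : Gam U}, δ ∈ N → δ.right = 1 → ∀ y, δ.left.1 y ≠ 1 →
        ∃ (y : P) (r : A5), r ≠ 1 ∧ D U y r ∈ N := by
      intro δ hδ hδ1 y hy
      obtain ⟨t, ht⟩ := exists_noncomm hy
      refine ⟨y, _, ht, ?_⟩
      rw [← comm_base hδ1]
      exact hcomm hδ _
    by_cases hr : γ.right = 1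
    · have h1 : ∃ y, γ.left.1 y ≠ 1 := by
        by_contra h
        push Not at h
        apply hγ1
        apply gam_ext
        · intro y; rw [h y]; rfl
        · rw [hr]; rfl
      obtain ⟨y, hy⟩ := h1
      exact hbase hγ hr y hy
    · obtain ⟨a, ha⟩ := exists_ne1
      have h1 := hcomm hγ (D U 1 a)
      rw [D_conj, ← D_inv] at h1
      refine hbase h1 ?_ 1 ?_
      · rw [SemidirectProduct.mul_right, D_right, D_right, one_mul]
      · rw [mul_left_val, D_left, D_left, D_right, inv_one, one_mul, dl_self, dl_ne, one_mul]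
        · exact inv_ne_one.mpr ha
        · intro h; apply hr; rw [h, mul_one]
  have h2 := all_of_one hN hr hyr s
  have h3 := hN.conj_mem _ h2 (SemidirectProduct.inr (x * y⁻¹))
  rw [D_conj] at h3
  have e1 : (SemidirectProduct.inr (x * y⁻¹) : Gam U).right * y = x := by
    rw [SemidirectProduct.right_inr, inv_mul_cancel_right]
  have e2 : ∀ z, (SemidirectProduct.inr (x * y⁻¹) : Gam U).left.1 z = 1 := fun z => rfl
  rw [e1, e2, one_mul, inv_one, mul_one] at h3
  exact h3

/-! ### Automorphisms -/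

lemma right_aut (Φ : MulAut (Gam U)) (x : P) (s : A5) : (Φ (D U x s)).right = 1 := by
  obtain ⟨a, ha⟩ := exists_ne1
  have hN : ((SemidirectProduct.rightHom (φ := sh U)).ker.comap Φ.toMonoidHom).Normal :=
    Subgroup.Normal.comap inferInstance _
  have h1 : Φ.symm (D U x a) ∈ (SemidirectProduct.rightHom (φ := sh U)).ker.comap Φ.toMonoidHom := by
    rw [Subgroup.mem_comap]
    change Φ (Φ.symm (D U x a)) ∈ _
    rw [MulEquiv.apply_symm_apply]
    rfl
  have h2 : Φ.symm (D U x a) ≠ 1 := by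
    intro h
    apply D_ne_one (U := U) (x := x) ha
    rw [← Φ.apply_symm_apply (D U x a), h, map_one]
  exact mem_of_normal hN h1 h2 x s

lemma conj_D {γ : Gam U} (hγ : γ.right = 1) (x : P) (s : A5) :
    γ * D U x s * γ⁻¹ = D U x (γ.left.1 x * s * (γ.left.1 x)⁻¹) := by
  rw [D_conj, hγ, one_mul]

/-- an automorphism permutes the copies of `A5` -/
lemma exists_image (Φ : MulAut (Gam U)) (x : P) :
    ∃ (y : P) (c : MulAut A5), ∀ s, Φ (D U x s) = D U y (c s) := by
  obtain ⟨a, ha⟩ := exists_ne1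
  have h1 : Φ (D U x a) ≠ 1 := by
    intro h
    apply D_ne_one (U := U) (x := x) ha
    apply Φ.injective
    rw [h, map_one]
  have hy : ∃ y, (Φ (D U x a)).left.1 y ≠ 1 := by
    by_contra h
    push Not at h
    apply h1
    apply gam_ext
    · intro y; rw [h y]; rfl
    · exact right_aut Φ x a
  obtain ⟨y, hy⟩ := hy
  -- the elements of the copy at `y` in the image
  have hr : ∀ t, (Φ.symm (D U y t)).right = 1 := fun t => right_aut (Φ⁻¹) y t
  let H : Subgroup A5 := ((DH U x).range.map Φ.toMonoidHom).comap (DH U y)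
  have hHmem : ∀ t, t ∈ H ↔ ∃ s, Φ (D U x s) = D U y t := by
    intro t
    constructor
    · rintro ⟨z, ⟨s, rfl⟩, hz⟩
      exact ⟨s, hz⟩
    · rintro ⟨s, hs⟩
      exact ⟨_, ⟨s, rfl⟩, hs⟩
  have hH : H.Normal := by
    constructor
    intro t ht r
    rw [hHmem] at ht ⊢
    obtain ⟨s, hs⟩ := ht
    refine ⟨(Φ.symm (D U y r)).left.1 x * s * ((Φ.symm (D U y r)).left.1 x)⁻¹, ?_⟩
    rw [← conj_D (hr r), map_mul, map_mul, map_inv, hs, MulEquiv.apply_symm_apply, D_mul, D_mul,
      D_inv]
  obtain ⟨t, ht⟩ := exists_noncomm hy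
  have hHne : H ≠ ⊥ := by
    intro h
    have h2 : (Φ (D U x a)).left.1 y * t * ((Φ (D U x a)).left.1 y)⁻¹ * t⁻¹ ∈ H := by
      rw [hHmem]
      refine ⟨a * ((Φ.symm (D U y t)).left.1 x * a⁻¹ * ((Φ.symm (D U y t)).left.1 x)⁻¹), ?_⟩
      rw [← comm_base (right_aut Φ x a), D_mul, ← conj_D (hr t), map_mul, map_mul, map_mul,
        map_inv, MulEquiv.apply_symm_apply, D_inv, map_inv]
      group
    rw [h] at h2
    exact ht (Subgroup.mem_bot.mp h2)
  have hHtop : H = ⊤ := hH.eq_bot_or_eq_top.resolve_left hHne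
  have hall : ∀ t, ∃ s, Φ (D U x s) = D U y t := by
    intro t
    rw [← hHmem, hHtop]; trivial
  choose c hc using hall
  have hDinj : ∀ {z : P} {s t : A5}, D U z s = D U z t → s = t := by
    intro z s t h
    by_cases hs : s = 1
    · subst hs
      by_contra hne
      exact hne (D_inj h.symm (Ne.symm hne)).2.symm
    · exact (D_inj h hs).2
  have hcmul : ∀ s t, c (s * t) = c s * c t := by
    intro s t
    apply hDinj (z := x)
    apply Φ.injective
    rw [hc, D_mul, D_mul, map_mul, hc, hc]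
  have hcinj : Function.Injective c := by
    intro s t hst
    apply hDinj (z := y)
    rw [← hc s, ← hc t, hst]
  have hcbij : Function.Bijective c := hcinj.bijective_of_finite
  let C : MulAut A5 := MulEquiv.ofBijective (MonoidHom.mk' c hcmul) hcbij
  refine ⟨y, C.symm, fun s => ?_⟩
  rw [← hc (C.symm s)]
  congr 2
  exact (C.apply_symm_apply s).symm

end Pool.Agent.Q275.CG
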